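import Mathlib

set_option autoImplicit false

/-!
# A fast check that all orbits of `y ↦ y² + y` modulo `p` end in `0`

For `1 ≤ m < p / 2` the orbit of `m` is followed until it meets a residue `j` or `-1 - j` with
`j < m`.  The state is `u = x - m` modulo `p`, so that the test is `u ≤ p - 2 m - 1`.
-/

namespace Q280.Conn

/-- follow the orbit in the shifted coordinate -/
def run (p B C c : ℕ) : ℕ → ℕ → Bool :=
  Nat.rec (fun _ => false)
    (fun _ ih u => Bool.rec true
      ((fun v => Bool.rec true
        (ih (Nat.mod (Nat.add (Nat.mul v (Nat.add v B)) C) p)) (Nat.ble v c))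
        (Nat.mod (Nat.add (Nat.mul u (Nat.add u B)) C) p)) (Nat.ble u c))

/-- check a block of `2 ^ k` starting values -/
def blk (p F : ℕ) : ℕ → ℕ → Bool :=
  Nat.rec (fun m => run p (Nat.succ (Nat.mul 2 m)) (Nat.add (Nat.mul m m) p)
      (Nat.sub (Nat.sub p (Nat.mul 2 m)) 1) F (Nat.mod (Nat.add (Nat.mul m m) p) p))
    (fun k ih a => Bool.rec false (ih (Nat.add a (Nat.pow 2 k))) (ih a))

/-- the map `y ↦ y² + y` -/
def H (p : ℕ) (y : ZMod p) : ZMod p := y ^ 2 + y

lemma step_lt (p m u : ℕ) (hp : 0 < p) :
    Nat.mod (Nat.add (Nat.mul u (Nat.add u (2 * m + 1))) (m * m + p)) p < p :=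
  Nat.mod_lt _ hp

lemma step_cast (p m u : ℕ) :
    ((Nat.mod (Nat.add (Nat.mul u (Nat.add u (2 * m + 1))) (m * m + p)) p : ℕ) : ZMod p) + m =
      H p ((u : ZMod p) + m) := by
  have e : ((Nat.mod (Nat.add (Nat.mul u (Nat.add u (2 * m + 1))) (m * m + p)) p : ℕ) : ZMod p) =
      ((u * (u + (2 * m + 1)) + (m * m + p) : ℕ) : ZMod p) := ZMod.natCast_mod _ _
  rw [e]
  unfold H
  push_cast
  rw [ZMod.natCast_self]
  ring

/-- the orbit of `x` meets a residue `j` or `-1 - j` with `j < m` -/
def Drops (p m : ℕ) (x : ZMod p) : Prop :=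
  ∃ k j : ℕ, j < m ∧ ((H p)^[k] x = (j : ZMod p) ∨ (H p)^[k] x = -1 - (j : ZMod p))

lemma Drops.of_step {p m : ℕ} {x : ZMod p} (h : Drops p m (H p x)) : Drops p m x := by
  obtain ⟨k, j, hj, h⟩ := h
  exact ⟨k + 1, j, hj, by simpa only [Function.iterate_succ_apply] using h⟩

lemma drops_of_gt {p m u : ℕ} (hm : 2 * m < p) (hu : u < p)
    (h : Nat.ble u (p - 2 * m - 1) = false) : Drops p m ((u : ZMod p) + m) := by
  have h1 : ¬ (u ≤ p - 2 * m - 1) := by
    intro h2
    have := Nat.ble_eq.mpr h2
    rw [h] at this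
    exact Bool.noConfusion this
  by_cases h2 : u + m < p
  · refine ⟨0, p - 1 - (u + m), by omega, Or.inr ?_⟩
    simp only [Function.iterate_zero, id_eq]
    have e : (u : ZMod p) + m = ((u + m : ℕ) : ZMod p) := by push_cast; ring
    rw [e]
    have e2 : ((p - 1 - (u + m) : ℕ) : ZMod p) + ((u + m : ℕ) : ZMod p) + 1 = 0 := by
      rw [← Nat.cast_add]
      have : p - 1 - (u + m) + (u + m) = p - 1 := by omega
      rw [this]
      have h3 : ((p - 1 + 1 : ℕ) : ZMod p) = 0 := by
        rw [show p - 1 + 1 = p by omega]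
        exact ZMod.natCast_self p
      push_cast at h3 ⊢
      exact h3
    linear_combination e2
  · refine ⟨0, u + m - p, by omega, Or.inl ?_⟩
    simp only [Function.iterate_zero, id_eq]
    have e2 : ((u + m - p : ℕ) : ZMod p) + ((p : ℕ) : ZMod p) = ((u + m : ℕ) : ZMod p) := by
      rw [← Nat.cast_add]
      congr 1
      omega
    rw [ZMod.natCast_self, add_zero] at e2
    rw [e2]
    push_cast
    ring

lemma run_succ (p B C c F u : ℕ) : run p B C c (F + 1) u =
    Bool.rec true
      ((fun v => Bool.rec true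
        (run p B C c F (Nat.mod (Nat.add (Nat.mul v (Nat.add v B)) C) p)) (Nat.ble v c))
        (Nat.mod (Nat.add (Nat.mul u (Nat.add u B)) C) p)) (Nat.ble u c) := rfl

lemma run_spec {p m : ℕ} (hm : 2 * m < p) (F : ℕ) : ∀ u : ℕ, u < p →
    run p (2 * m + 1) (m * m + p) (p - 2 * m - 1) F u = true →
    Drops p m ((u : ZMod p) + m) := by
  have hp : 0 < p := by omega
  induction F with
  | zero => intro u _ h; exact absurd h (by simp [run])
  | succ F ih =>
    intro u hu h
    rw [run_succ] at h
    cases hb : Nat.ble u (p - 2 * m - 1) with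
    | false => exact drops_of_gt hm hu hb
    | true =>
      rw [hb] at h
      simp only at h
      set v := Nat.mod (Nat.add (Nat.mul u (Nat.add u (2 * m + 1))) (m * m + p)) p with hv
      have hvlt : v < p := step_lt p m u hp
      have hvc : (v : ZMod p) + m = H p ((u : ZMod p) + m) := step_cast p m u
      cases hb2 : Nat.ble v (p - 2 * m - 1) with
      | false =>
        have := drops_of_gt hm hvlt hb2
        rw [hvc] at this
        exact this.of_step
      | true =>
        rw [hb2] at h
        simp only at h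
        have := ih _ (step_lt p m v hp) h
        rw [step_cast, hvc] at this
        exact this.of_step.of_step

lemma blk_succ (p F k a : ℕ) : blk p F (k + 1) a =
    Bool.rec false (blk p F k (Nat.add a (Nat.pow 2 k))) (blk p F k a) := rfl

lemma blk_spec {p F : ℕ} (k : ℕ) : ∀ a : ℕ, blk p F k a = true → ∀ m, a ≤ m → m < a + 2 ^ k →
    0 < p → 2 * m < p → Drops p m (m : ZMod p) := by
  induction k with
  | zero =>
    intro a h m h1 h2 hp hm
    have : m = a := by simp at h2; omega
    subst this
    have h' : run p (2 * m + 1) (m * m + p) (p - 2 * m - 1) F (Nat.mod (m * m + p) p) = true := h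
    have h3 := run_spec hm F _ (Nat.mod_lt _ hp) h'
    have e : (((m * m + p) % p : ℕ) : ZMod p) + m = H p (m : ZMod p) := by
      have e1 : (((m * m + p) % p : ℕ) : ZMod p) = ((m * m + p : ℕ) : ZMod p) :=
        ZMod.natCast_mod _ _
      rw [e1]
      unfold H
      push_cast
      rw [ZMod.natCast_self]
      ring
    rw [e] at h3
    exact h3.of_step
  | succ k ih =>
    intro a h m h1 h2 hp hm
    rw [blk_succ] at h
    cases hb : blk p F k a with
    | false => rw [hb] at h; exact absurd h (by simp)
    | true =>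
      rw [hb] at h
      simp only at h
      by_cases h3 : m < a + 2 ^ k
      · exact ih a hb m h1 h3 hp hm
      · refine ih (a + 2 ^ k) h m (by omega) ?_ hp hm
        rw [pow_succ] at h2
        omega

lemma H_neg (p : ℕ) (x : ZMod p) : H p (-1 - x) = H p x := by
  unfold H
  ring

lemma reach {p : ℕ} (hdrop : ∀ m : ℕ, 1 ≤ m → 2 * m < p → Drops p m (m : ZMod p)) :
    ∀ m : ℕ, 2 * m < p → ∃ k, (H p)^[k] (m : ZMod p) = 0 := by
  intro m
  induction m using Nat.strong_induction_on with
  | _ m ih =>
    intro hm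
    rcases Nat.eq_zero_or_pos m with h0 | h0
    · exact ⟨0, by simp [h0]⟩
    · obtain ⟨k, j, hj, h⟩ := hdrop m h0 hm
      obtain ⟨l, hl⟩ := ih j hj (by omega)
      rcases h with h | h
      · refine ⟨l + k, ?_⟩
        rw [Function.iterate_add_apply, h, hl]
      · -- H (-1 - j) = H j
        have h1 : (H p)^[k + 1] (m : ZMod p) = H p (j : ZMod p) := by
          rw [Function.iterate_succ_apply', h, H_neg]
        cases l with
        | zero =>
          simp only [Function.iterate_zero, id_eq] at hl
          refine ⟨k + 1, ?_⟩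
          rw [h1, hl]
          simp [H]
        | succ l =>
          refine ⟨l + (k + 1), ?_⟩
          rw [Function.iterate_add_apply, h1, ← Function.iterate_succ_apply, hl]

/-- every orbit of `y ↦ y² + y` ends in `0` -/
theorem reach_all {p : ℕ} [NeZero p] (hodd : p % 2 = 1)
    (hdrop : ∀ m : ℕ, 1 ≤ m → 2 * m < p → Drops p m (m : ZMod p)) (y : ZMod p) :
    ∃ k, (H p)^[k] y = 0 := by
  have hp : 0 < p := Nat.pos_of_ne_zero (NeZero.ne p)
  have hy : ((y.val : ℕ) : ZMod p) = y := ZMod.natCast_zmod_val y
  have hlt := ZMod.val_lt y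
  by_cases h : 2 * y.val < p
  · obtain ⟨k, hk⟩ := reach hdrop y.val h
    rw [hy] at hk
    exact ⟨k, hk⟩
  · obtain ⟨k, hk⟩ := reach hdrop (p - 1 - y.val) (by omega)
    have e : ((p - 1 - y.val : ℕ) : ZMod p) = -1 - y := by
      have h3 : ((p - 1 - y.val + y.val + 1 : ℕ) : ZMod p) = 0 := by
        rw [show p - 1 - y.val + y.val + 1 = p by omega]
        exact ZMod.natCast_self p
      push_cast at h3
      rw [hy] at h3
      linear_combination h3
    rw [e] at hk
    cases k with
    | zero =>
      simp only [Function.iterate_zero, id_eq] at hk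
      refine ⟨1, ?_⟩
      simp only [Function.iterate_one]
      rw [← H_neg, hk]
      simp [H]
    | succ k =>
      refine ⟨k + 1, ?_⟩
      rw [Function.iterate_succ_apply, H_neg] at hk
      rw [Function.iterate_succ_apply]
      exact hk

end Q280.Conn
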