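import Pool.Agent.Q280.Conn.Basic

set_option autoImplicit false

/-! A part of the computation for the prime `1113643`. -/

namespace Q280.Conn

set_option maxRecDepth 100000 in
theorem b65537 : blk 1113643 2048 16 65537 = true := by decide +kernel

set_option maxRecDepth 100000 in
theorem b131073 : blk 1113643 2048 17 131073 = true := by decide +kernel

end Q280.Conn
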